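import Pool.Agent.N636.BW.Fail

/-!
`Sigma^1_1-AC_0` (hence `finite-Sigma^1_1-AC_0`) does not imply arithmetic Bolzano-Weierstrass
over `RCA_0`, and not even over `ACA_0`.

The model: the numbers form a nonstandard, countably saturated elementary extension `M` of the
natural numbers, and the sets are the arithmetically definable sets (with parameters) of `M`.
Choice holds by saturation and by taking least indices. The arithmetical class of all `X` which
code a number `k` together with a hierarchy of `k` jumps has exactly one element `X_k` for each
standard `k` and no other elements. A finite list of these sets would define the set of standard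
numbers, and for nonstandard `n` the first `n` values of `X_k` determine `k`, so that there is no
accumulation point.
-/

set_option autoImplicit false

namespace Pool.Agent.Results.MP_3f22c5_lc.ChoiceWithoutABW

open Pool.Agent.Helper617.RM Pool.Agent.N636.BW

/-- There is a model of `RCA_0` with arithmetical comprehension that satisfies
`Sigma^1_1-AC_0` and `finite-Sigma^1_1-AC_0` and does not satisfy `ABW_0`. -/
theorem result : ∃ N : L2Structure.{0}, IsModelRCA0 N ∧ ArithComp N ∧ Sigma11AC N ∧
    FiniteSigma11AC N ∧ ¬ ABW N := main

end Pool.Agent.Results.MP_3f22c5_lc.ChoiceWithoutABW
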